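import Pool.Agent.X209.Gss.Final

/-!
# Guessing models `M` with `κ_M` the successor of a singular cardinal

Let `μ₀ < μ₁ < ⋯` be cardinals such that `μ₀` is supercompact and the other `μ_n` are strongly
compact, and let `ν` be their supremum, a singular cardinal of cofinality `ω`. Let `R` be `V(α)`,
where `α > ν⁺` has cofinality greater than `ν`, or `H(θ)`, where `θ > ν⁺` is regular. Then for each
`A ⊆ P_ω(R)` there is a `ν⁺`-guessing `M ≺ ⟨R, ∈, A⟩` of size `ν` with `κ_M = ν⁺`.

Proof. Fix a bijective coding of the `ν`-sequences of members of `R` by members of `R`, and a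
supercompactness measure `U` on `P_{μ₀}(R)`. For `a ∈ P_{μ₀}(R)` let `M_a` be the set of the values
of the `ν`-sequences with codes in `a`. By normality `M_a` is closed under a given finitary function
for almost all `a`; so almost all `M_a` are elementary submodels of size `ν` which contain `ν`. If
`D_a ⊆ X_a` is a `ν⁺`-approximated subset of some `X_a ∈ M_a` for almost all `a`, then for every set
`Z` of size `ν` the set `D_a ∩ Z` is almost always in the range of one fixed `ν`-sequence, and in
fact, by the completeness of `U`, among its first `μ_n` values, where `n` does not depend on `Z`.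
Integrating these sequences with a fine `μ_{n+1}`-complete ultrafilter on the sets of size `ν`, one
gets sets `e_η`, `η < μ_n`, such that for all `Z` of size `ν` the set `D_a ∩ Z` is almost
always equal to `e_η ∩ Z` for some `η < μ_n`. Then, again by normality, `D_a ∩ M_a = e_η ∩ M_a` for
some `η` almost always, and all the `e_η` (intersected with the union of all candidates for `X_a`)
almost always belong to `M_a`.
-/

namespace Pool.Agent.Results.MP_f5d68c_lc.GuessingAtSingularSucc

open Cardinal Pool.Agent.X209.Gss

universe u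

/-- If `μ 0 < μ 1 < ⋯`, where `μ 0` is supercompact and the other `μ n` are strongly compact, then
the supremum `ν` of the `μ n` is singular, of cofinality `ω`, and for each suitable initial segment
`R`, of the form `V(α)` with `α > ν⁺` and `cf(α) > ν`, or of the form `H(θ)` with `θ > ν⁺` regular,
and each family `A` of finite subsets of `R` there is a `ν⁺`-guessing `M ≺ ⟨R, ∈, A⟩` of size `ν`
with `κ_M = ν⁺`. -/
theorem result (μ : ℕ → Cardinal.{u}) (hμ : StrictMono μ) (h0 : Supercompact (μ 0))
    (hsc : ∀ n, StronglyCompact (μ (n + 1))) :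
    ((⨆ n, μ n).ord.cof = ℵ₀ ∧ ℵ₀ < ⨆ n, μ n) ∧
    ∀ R : Set ZFSet.{u},
      ((∃ α : Ordinal.{u}, (Order.succ (⨆ n, μ n)).ord < α ∧ ⨆ n, μ n < α.cof ∧ R = Vset α) ∨
        ∃ θ : Cardinal.{u}, θ.IsRegular ∧ Order.succ (⨆ n, μ n) < θ ∧ R = Hset θ) →
      ∀ A : Set (Set ZFSet.{u}), (∀ s ∈ A, s ⊆ R ∧ s.Finite) →
        ∃ M : ZFSet.{u}, ElemSubA R A M ∧ M.card = ⨆ n, μ n ∧
          IsKappa M (Order.succ (⨆ n, μ n)).ord ∧ DeltaGuessing R (Order.succ (⨆ n, μ n)) M :=
  ⟨⟨iSup_cof fun n => hμ (Nat.lt_succ_self n),
    h0.1.trans_le (le_ciSup Cardinal.bddAbove_of_small 0)⟩,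
    fun R hR A _ => main_A hμ h0 hsc R hR A⟩

end Pool.Agent.Results.MP_f5d68c_lc.GuessingAtSingularSucc
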